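import Pool.Agent.H20.RCC.Stmts

/-!
Board rcc, row ZI0: column sums of the words 9^(a+s+b) S 1^a and 9^a S 1^(a+s+b).
-/

set_option autoImplicit false

namespace Pool.RCC

namespace ZI0

theorem zw_app (l₁ l₂ m₁ m₂ : List ℕ) (h : l₁.length = m₁.length) :
    List.zipWith (· + ·) (l₁ ++ l₂) (m₁ ++ m₂) =
      List.zipWith (· + ·) l₁ m₁ ++ List.zipWith (· + ·) l₂ m₂ := by
  induction l₁ generalizing m₁ with
  | nil =>
    cases m₁ with
    | nil => rfl
    | cons _ _ => simp at h
  | cons x l ih =>
    cases m₁ with
    | nil => simp at h
    | cons y m =>
      simp only [List.length_cons, Nat.succ.injEq] at h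
      simp only [List.cons_append, List.zipWith_cons_cons, ih m h]

theorem zw_rep (a c d : ℕ) : List.zipWith (· + ·) (List.replicate a c) (List.replicate a d) =
    List.replicate a (c + d) := by
  induction a with
  | zero => rfl
  | succ a ih => simp only [List.replicate_succ, List.zipWith_cons_cons, ih]

theorem zw_left (c : ℕ) (l : List ℕ) : List.zipWith (· + ·) (List.replicate l.length c) l =
    l.map (c + ·) := by
  induction l with
  | nil => rfl
  | cons x l ih => simp only [List.length_cons, List.replicate_succ, List.zipWith_cons_cons, ih,
      List.map_cons]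

theorem zw_right (c : ℕ) (l : List ℕ) : List.zipWith (· + ·) l (List.replicate l.length c) =
    l.map (· + c) := by
  induction l with
  | nil => rfl
  | cons x l ih => simp only [List.length_cons, List.replicate_succ, List.zipWith_cons_cons, ih,
      List.map_cons]

end ZI0

theorem ZI0_thm : ZI0Stmt := by
  intro S x a b
  constructor
  · rintro rfl
    have h1 : List.replicate (a + S.length + b) 9 ++ (S ++ List.replicate a 1) =
        List.replicate a 9 ++ (List.replicate S.reverse.length 9 ++
          (List.replicate b 9 ++ (S ++ List.replicate a 1))) := by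
      rw [List.length_reverse, List.replicate_add, List.replicate_add]
      simp only [List.append_assoc]
    have h2 : (List.replicate (a + S.length + b) 9 ++ (S ++ List.replicate a 1)).reverse =
        List.replicate a 1 ++ (S.reverse ++
          (List.replicate b 9 ++ (List.replicate S.length 9 ++ List.replicate a 9))) := by
      rw [List.reverse_append, List.reverse_append, List.reverse_replicate,
        List.reverse_replicate, show a + S.length + b = b + (S.length + a) by omega,
        List.replicate_add, List.replicate_add]
      simp only [List.append_assoc]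
    rw [h2, h1, ZI0.zw_app _ _ _ _ (by simp), ZI0.zw_app _ _ _ _ (by simp),
      ZI0.zw_app _ _ _ _ (by simp), ZI0.zw_app _ _ _ _ (by simp), ZI0.zw_rep, ZI0.zw_left,
      ZI0.zw_rep, ZI0.zw_right, ZI0.zw_rep]
  · rintro rfl
    have h1 : List.replicate a 9 ++ (S ++ List.replicate (a + S.length + b) 1) =
        List.replicate a 9 ++ (S ++ (List.replicate b 1 ++
          (List.replicate S.reverse.length 1 ++ List.replicate a 1))) := by
      rw [List.length_reverse, show a + S.length + b = b + (S.length + a) by omega,
        List.replicate_add, List.replicate_add]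
    have h2 : (List.replicate a 9 ++ (S ++ List.replicate (a + S.length + b) 1)).reverse =
        List.replicate a 1 ++ (List.replicate S.length 1 ++
          (List.replicate b 1 ++ (S.reverse ++ List.replicate a 9))) := by
      rw [List.reverse_append, List.reverse_append, List.reverse_replicate,
        List.reverse_replicate, List.replicate_add, List.replicate_add]
      simp only [List.append_assoc]
    have h3 : (1 + · : ℕ → ℕ) = (· + 1) := by
      funext y
      exact Nat.add_comm 1 y
    rw [h2, h1, ZI0.zw_app _ _ _ _ (by simp), ZI0.zw_app _ _ _ _ (by simp),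
      ZI0.zw_app _ _ _ _ (by simp), ZI0.zw_app _ _ _ _ (by simp), ZI0.zw_rep, ZI0.zw_right,
      ZI0.zw_rep, ZI0.zw_left, ZI0.zw_rep, h3, List.map_reverse]

end Pool.RCC
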